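import Pool.Agent.H582EH.Chain
import Pool.Agent.H357R2.SI.Moment

/-!
The energy bound for subsets of the primes (MP_a78e8f_nt, helper582).
-/

set_option autoImplicit false

namespace Pool.Agent.H582EH

open Pool.Agent.H357R2.SI (PZ mem_PZ sg one_le_sg pair_sieve sum_sg_sq pnt)

lemma sg_mul_le (m n : ℕ) : sg (m * n) ≤ sg m * sg n := by
  classical
  unfold sg
  rw [Nat.divisors_mul, Finset.mul_def, Finset.sum_mul_sum, ← Finset.sum_product']
  refine (Finset.sum_image_le_of_nonneg (fun u _ => by positivity)).trans ?_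
  apply le_of_eq
  apply Finset.sum_congr rfl
  intro p _
  push_cast
  rw [one_div_mul_one_div]

lemma totient_mul_le (d m : ℕ) : Nat.totient (d * m) ≤ d * Nat.totient m := by
  have h1 : ((Finset.range (d * m)).filter (fun x => Nat.Coprime m x)).card =
      d * Nat.totient m := by
    induction d with
    | zero => simp
    | succ d ih =>
      have h2 : Finset.range ((d + 1) * m) = Finset.range (d * m) ∪ Finset.Ico (d * m) (d * m + m) := by
        ext x
        simp only [Finset.mem_range, Finset.mem_union, Finset.mem_Ico]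
        have : (d + 1) * m = d * m + m := by ring
        omega
      rw [h2, Finset.filter_union, Finset.card_union_of_disjoint, ih,
        Nat.filter_coprime_Ico_eq_totient]
      · ring
      · apply Finset.disjoint_filter_filter
        rw [Finset.disjoint_left]
        intro x hx hx2
        have a1 := Finset.mem_range.1 hx
        have a2 := (Finset.mem_Ico.1 hx2).1
        omega
  rw [← h1, Nat.totient_eq_card_coprime]
  apply Finset.card_le_card
  intro x hx
  rw [Finset.mem_filter] at hx ⊢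
  exact ⟨hx.1, (Nat.Coprime.coprime_dvd_left (Dvd.intro_left d rfl) hx.2)⟩

lemma sg_totient (n : ℕ) (hn : 0 < n) : sg n * Nat.totient n ≤ n := by
  unfold sg
  rw [Finset.sum_mul]
  have h1 : ∀ d ∈ n.divisors, 1 / (d : ℝ) * Nat.totient n ≤ Nat.totient (n / d) := by
    intro d hd
    have hdn := Nat.dvd_of_mem_divisors hd
    have hd0 : (0 : ℝ) < d := by exact_mod_cast Nat.pos_of_mem_divisors hd
    have h2 : Nat.totient n ≤ d * Nat.totient (n / d) := by
      have := totient_mul_le d (n / d)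
      rwa [Nat.mul_div_cancel' hdn] at this
    have h3 : (Nat.totient n : ℝ) ≤ d * Nat.totient (n / d) := by exact_mod_cast h2
    rw [div_mul_eq_mul_div, one_mul, div_le_iff₀ hd0]
    linarith
  refine (Finset.sum_le_sum h1).trans ?_
  have h4 := Nat.sum_div_divisors n (fun d => (Nat.totient d : ℝ))
  rw [h4]
  have h5 := Nat.sum_totient n
  apply le_of_eq
  exact_mod_cast h5

/-- pairs in the same class -/
lemma pairs (x q : ℕ) (hq : 0 < q) (S : Finset ℕ) (hS : S ⊆ PZ x) :
    ∑ a ∈ red q, (cnt S q a) ^ 2 ≤ (PZ x).card + 2 * ∑ k ∈ Finset.Icc 1 (x / q),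
        ((Finset.Ioc 0 x).filter (fun n => n.Prime ∧ (n + q * k).Prime)).card := by
  classical
  set W := (S ×ˢ S).filter (fun y => y.1 ≡ y.2 [MOD q]) with hW
  have hWcard : ∑ a ∈ Finset.range q, (cnt S q a) ^ 2 = W.card := by
    rw [Finset.card_eq_sum_card_fiberwise (s := W) (t := Finset.range q)
      (f := fun y => y.1 % q) (by
        intro y _
        simpa using Nat.mod_lt _ hq)]
    apply Finset.sum_congr rfl
    intro a ha
    have haq := Finset.mem_range.1 ha
    unfold cnt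
    rw [sq, ← Finset.card_product]
    congr 1
    ext y
    rw [Finset.mem_product, Finset.mem_filter, Finset.mem_filter, Finset.mem_filter, hW,
      Finset.mem_filter, Finset.mem_product]
    constructor
    · rintro ⟨⟨h1, h2⟩, h3, h4⟩
      refine ⟨⟨⟨h1, h3⟩, h2.trans h4.symm⟩, ?_⟩
      have h5 : y.1 % q = a % q := h2
      rw [h5, Nat.mod_eq_of_lt haq]
    · rintro ⟨⟨⟨h1, h3⟩, h2⟩, h5⟩
      have h6 : y.1 ≡ a [MOD q] := by
        show y.1 % q = a % q
        rw [h5, Nat.mod_eq_of_lt haq]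
      exact ⟨⟨h1, h6⟩, h3, h2.symm.trans h6⟩
  have hle : ∑ a ∈ red q, (cnt S q a) ^ 2 ≤ ∑ a ∈ Finset.range q, (cnt S q a) ^ 2 :=
    Finset.sum_le_sum_of_subset (Finset.filter_subset _ _)
  refine hle.trans ?_
  rw [hWcard]
  set D := (PZ x).image (fun p => (p, p)) with hD
  set U := (Finset.Icc 1 (x / q)).biUnion (fun k =>
    ((Finset.Ioc 0 x).filter (fun n => n.Prime ∧ (n + q * k).Prime)).image
      (fun p => (p, p + q * k))) with hU
  set V := (Finset.Icc 1 (x / q)).biUnion (fun k =>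
    ((Finset.Ioc 0 x).filter (fun n => n.Prime ∧ (n + q * k).Prime)).image
      (fun p => (p + q * k, p))) with hV
  have hkey : ∀ u v : ℕ, u.Prime → v.Prime → u ≤ x → v ≤ x → u < v → u ≡ v [MOD q] →
      ∃ k ∈ Finset.Icc 1 (x / q), v = u + q * k := by
    intro u v hu hv hux hvx huv hmod
    have h1 : q ∣ v - u := (Nat.modEq_iff_dvd' huv.le).1 hmod
    obtain ⟨k, hk⟩ := h1
    refine ⟨k, Finset.mem_Icc.2 ⟨?_, ?_⟩, by omega⟩
    · rcases Nat.eq_zero_or_pos k with h | h
      · subst h; simp at hk; omega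
      · exact h
    · rw [Nat.le_div_iff_mul_le hq]
      rw [mul_comm]
      omega
  have hsub : W ⊆ D ∪ (U ∪ V) := by
    rintro ⟨u, v⟩ hx
    rw [hW, Finset.mem_filter, Finset.mem_product] at hx
    obtain ⟨⟨hu, hv⟩, h1⟩ := hx
    simp only at hu hv h1
    obtain ⟨hu1, hu2⟩ := mem_PZ.1 (hS hu)
    obtain ⟨hv1, hv2⟩ := mem_PZ.1 (hS hv)
    rw [Finset.mem_union, Finset.mem_union]
    rcases lt_trichotomy u v with h | h | h
    · right; left
      obtain ⟨k, hk, hvk⟩ := hkey u v hu1 hv1 hu2 hv2 h h1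
      rw [hU, Finset.mem_biUnion]
      refine ⟨k, hk, Finset.mem_image.2 ⟨u, Finset.mem_filter.2 ⟨Finset.mem_Ioc.2 ⟨hu1.pos, hu2⟩,
        hu1, ?_⟩, ?_⟩⟩
      · rw [← hvk]; exact hv1
      · rw [← hvk]
    · left
      rw [hD, Finset.mem_image]
      exact ⟨u, mem_PZ.2 ⟨hu1, hu2⟩, by rw [h]⟩
    · right; right
      obtain ⟨k, hk, hvk⟩ := hkey v u hv1 hu1 hv2 hu2 h h1.symm
      rw [hV, Finset.mem_biUnion]
      refine ⟨k, hk, Finset.mem_image.2 ⟨v, Finset.mem_filter.2 ⟨Finset.mem_Ioc.2 ⟨hv1.pos, hv2⟩,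
        hv1, ?_⟩, ?_⟩⟩
      · rw [← hvk]; exact hu1
      · rw [← hvk]
  refine (Finset.card_le_card hsub).trans ?_
  refine (Finset.card_union_le _ _).trans ?_
  have hDc : D.card ≤ (PZ x).card := Finset.card_image_le
  have hUc : U.card ≤ ∑ k ∈ Finset.Icc 1 (x / q),
        ((Finset.Ioc 0 x).filter (fun n => n.Prime ∧ (n + q * k).Prime)).card :=
    Finset.card_biUnion_le.trans (Finset.sum_le_sum (fun _ _ => Finset.card_image_le))
  have hVc : V.card ≤ ∑ k ∈ Finset.Icc 1 (x / q),
        ((Finset.Ioc 0 x).filter (fun n => n.Prime ∧ (n + q * k).Prime)).card :=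
    Finset.card_biUnion_le.trans (Finset.sum_le_sum (fun _ _ => Finset.card_image_le))
  have h3 := Finset.card_union_le U V
  omega

/-- the energy of subsets of the primes -/
theorem energy_bound : ∃ C : ℝ, 0 < C ∧ ∀ x : ℕ, 2 ≤ x → ∀ q : ℕ, 0 < q →
    q * Real.log x ≤ x → ∀ S : Finset ℕ, S ⊆ PZ x →
    En S q ≤ C * (q / Nat.totient q) * (x / Real.log x) ^ 2 := by
  classical
  obtain ⟨C1, hC1, u0, hps⟩ := pair_sieve
  obtain ⟨C2, hC2, hsg⟩ := sum_sg_sq
  obtain ⟨X₀, hX₀, hpnt⟩ := pnt 1 one_pos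
  set X := max u0 X₀ with hX
  refine ⟨2 * (X : ℝ) ^ 3 + 2 + 2 * C1 * C2, by positivity, ?_⟩
  intro x hx q hq hqx S hS
  have hx2 : (2 : ℝ) ≤ x := by exact_mod_cast hx
  have hlog : 0 < Real.log x := Real.log_pos (by linarith)
  have hlogx : Real.log x ≤ x := (Real.log_le_sub_one_of_pos (by linarith)).trans (by linarith)
  have hφ : (0 : ℝ) < Nat.totient q := by exact_mod_cast Nat.totient_pos.2 hq
  have hq0 : (0 : ℝ) < q := by exact_mod_cast hq
  have hφq : (Nat.totient q : ℝ) ≤ q := by exact_mod_cast Nat.totient_le q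
  have hratio : 1 ≤ (q : ℝ) / Nat.totient q := by rw [le_div_iff₀ hφ]; linarith
  set A : ℝ := (x : ℝ) / Real.log x with hA
  have hA1 : 1 ≤ A := by rw [hA, le_div_iff₀ hlog]; linarith
  have hqA : (q : ℝ) ≤ A := by rw [hA, le_div_iff₀ hlog]; exact hqx
  rcases lt_or_ge x X with hlt | hge
  · -- small `x`
    have h1 : ∑ a ∈ red q, (cnt S q a : ℝ) ^ 2 ≤ (x : ℝ) ^ 2 := by
      have h2 : ∑ a ∈ red q, (cnt S q a : ℝ) ^ 2 ≤ (∑ a ∈ Finset.range q, (cnt S q a : ℝ)) ^ 2 := by
        refine (Finset.sum_le_sum_of_subset_of_nonneg (Finset.filter_subset _ _)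
          (fun _ _ _ => sq_nonneg _)).trans ?_
        exact Finset.sum_sq_le_sq_sum_of_nonneg (fun _ _ => Nat.cast_nonneg _)
      have h3 : ∑ a ∈ Finset.range q, (cnt S q a : ℝ) = S.card := by
        have := Finset.card_eq_sum_card_fiberwise (s := S) (t := Finset.range q)
          (f := fun n => n % q) (by
            intro n _
            simpa using Nat.mod_lt _ hq)
        rw [this]
        push_cast
        apply Finset.sum_congr rfl
        intro a ha
        unfold cnt
        congr 2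
        apply Finset.filter_congr
        intro n _
        show n % q = a % q ↔ n % q = a
        rw [Nat.mod_eq_of_lt (Finset.mem_range.1 ha)]
      have h4 : (S.card : ℝ) ≤ x := by
        have h5 : S.card ≤ (Finset.Ioc 0 x).card :=
          Finset.card_le_card (hS.trans (Finset.filter_subset _ _))
        rw [Nat.card_Ioc] at h5
        exact_mod_cast h5
      rw [h3] at h2
      refine h2.trans ?_
      gcongr
    have hxX : (x : ℝ) ≤ X := by exact_mod_cast hlt.le
    have h6 : (Nat.totient q : ℝ) ≤ 2 * X := by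
      have hAx : A ≤ 2 * x := by
        rw [hA, div_le_iff₀ hlog]
        have hl2 : (1 : ℝ) / 2 ≤ Real.log x := by
          have h7 : Real.log 2 ≤ Real.log x := Real.log_le_log (by norm_num) hx2
          have h8 := Real.log_two_gt_d9
          linarith
        nlinarith
      linarith
    have h9 : En S q ≤ 2 * (X : ℝ) ^ 3 := by
      unfold En
      calc (Nat.totient q : ℝ) * ∑ a ∈ red q, (cnt S q a : ℝ) ^ 2 ≤ (2 * X) * (x : ℝ) ^ 2 := by
            gcongr
        _ ≤ (2 * X) * (X : ℝ) ^ 2 := by gcongr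
        _ = 2 * (X : ℝ) ^ 3 := by ring
    refine h9.trans ?_
    have h10 : (1 : ℝ) ≤ (q : ℝ) / Nat.totient q * A ^ 2 := by
      have : (1 : ℝ) ≤ A ^ 2 := one_le_pow₀ hA1
      nlinarith
    have h11 : 0 ≤ 2 + 2 * C1 * C2 := by positivity
    have hX0 : (0 : ℝ) ≤ (X : ℝ) ^ 3 := by positivity
    calc 2 * (X : ℝ) ^ 3 ≤ (2 * (X : ℝ) ^ 3 + 2 + 2 * C1 * C2) * 1 := by linarith
      _ ≤ (2 * (X : ℝ) ^ 3 + 2 + 2 * C1 * C2) * ((q : ℝ) / Nat.totient q * A ^ 2) :=
          mul_le_mul_of_nonneg_left h10 (by positivity)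
      _ = _ := by ring
  · have hxu : u0 ≤ x := le_trans (le_max_left _ _) hge
    have hxX : X₀ ≤ x := le_trans (le_max_right _ _) hge
    have hP : ((PZ x).card : ℝ) ≤ 2 * A := by
      have h1 := (hpnt x hxX).2
      have h2 : (PZ x).card = Nat.primeCounting x := by
        rw [← Pool.Agent.H357R2.SI.pc_zero]
        rfl
      rw [h2, hA]
      calc (Nat.primeCounting x : ℝ) ≤ (1 + 1) * x / Real.log x := h1
        _ = 2 * (x / Real.log x) := by ring
    have hp := pairs x q hq S hS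
    have hp' : ∑ a ∈ red q, (cnt S q a : ℝ) ^ 2 ≤ (PZ x).card + 2 * ∑ k ∈ Finset.Icc 1 (x / q),
        (((Finset.Ioc 0 x).filter (fun n => n.Prime ∧ (n + q * k).Prime)).card : ℝ) := by
      exact_mod_cast hp
    have hsq0 : 0 ≤ sg q := by unfold sg; positivity
    have hsum : ∑ k ∈ Finset.Icc 1 (x / q),
        (((Finset.Ioc 0 x).filter (fun n => n.Prime ∧ (n + q * k).Prime)).card : ℝ) ≤
        C1 * sg q ^ 2 * (C2 * (x / q)) * x / Real.log x ^ 2 := by
      have h1 : ∀ k ∈ Finset.Icc 1 (x / q),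
          (((Finset.Ioc 0 x).filter (fun n => n.Prime ∧ (n + q * k).Prime)).card : ℝ) ≤
          (C1 * sg q ^ 2 * x / Real.log x ^ 2) * sg k ^ 2 := by
        intro k hk
        have hk1 := (Finset.mem_Icc.1 hk).1
        have h2 := hps (q * k) 0 x (Nat.mul_pos hq hk1) hxu
        rw [zero_add] at h2
        refine h2.trans ?_
        have h3 := sg_mul_le q k
        have h4 : 0 ≤ sg (q * k) := by unfold sg; positivity
        have h5 : sg (q * k) ^ 2 ≤ (sg q * sg k) ^ 2 := pow_le_pow_left₀ h4 h3 2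
        calc C1 * sg (q * k) ^ 2 * x / Real.log x ^ 2
            ≤ C1 * (sg q * sg k) ^ 2 * x / Real.log x ^ 2 := by gcongr
          _ = _ := by ring
      refine (Finset.sum_le_sum h1).trans ?_
      rw [← Finset.mul_sum]
      have h6 := hsg (x / q)
      have h7 : ((x / q : ℕ) : ℝ) ≤ (x : ℝ) / q := Nat.cast_div_le
      have h8 : ∑ h ∈ Finset.Icc 1 (x / q), sg h ^ 2 ≤ C2 * (x / q) :=
        h6.trans (by gcongr)
      calc (C1 * sg q ^ 2 * x / Real.log x ^ 2) * ∑ h ∈ Finset.Icc 1 (x / q), sg h ^ 2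
          ≤ (C1 * sg q ^ 2 * x / Real.log x ^ 2) * (C2 * (x / q)) := by gcongr
        _ = _ := by ring
    have hst := sg_totient q hq
    have hsg1 : sg q ≤ (q : ℝ) / Nat.totient q := by rw [le_div_iff₀ hφ]; exact hst
    have hsg2 : sg q ^ 2 * (Nat.totient q / q) ≤ (q : ℝ) / Nat.totient q := by
      have h1 : sg q * (Nat.totient q / q) ≤ 1 := by
        rw [mul_div_assoc', div_le_one hq0]; exact hst
      calc sg q ^ 2 * (Nat.totient q / q) = sg q * (sg q * (Nat.totient q / q)) := by ring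
        _ ≤ sg q * 1 := mul_le_mul_of_nonneg_left h1 hsq0
        _ = sg q := mul_one _
        _ ≤ _ := hsg1
    have hA2 : 0 ≤ A ^ 2 := sq_nonneg A
    unfold En
    calc (Nat.totient q : ℝ) * ∑ a ∈ red q, (cnt S q a : ℝ) ^ 2
        ≤ (Nat.totient q : ℝ) * (2 * A + 2 * (C1 * sg q ^ 2 * (C2 * (x / q)) * x /
            Real.log x ^ 2)) := by
          apply mul_le_mul_of_nonneg_left _ hφ.le
          linarith
      _ = 2 * (Nat.totient q : ℝ) * A +
            2 * C1 * C2 * (sg q ^ 2 * (Nat.totient q / q)) * A ^ 2 := by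
          rw [hA]; field_simp
      _ ≤ 2 * A * A + 2 * C1 * C2 * ((q : ℝ) / Nat.totient q) * A ^ 2 := by
          gcongr
          linarith
      _ ≤ (2 * (X : ℝ) ^ 3 + 2 + 2 * C1 * C2) * (q / Nat.totient q) * A ^ 2 := by
          have h1 : A ^ 2 ≤ (q : ℝ) / Nat.totient q * A ^ 2 := by nlinarith
          have h2 : 0 ≤ 2 * (X : ℝ) ^ 3 * ((q : ℝ) / Nat.totient q * A ^ 2) := by positivity
          nlinarith

end Pool.Agent.H582EH
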