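import Mathlib

/-!
Energy identity along a divisor chain of moduli (MP_a78e8f_nt, helper582).
-/

set_option autoImplicit false

namespace Pool.Agent.H582EH

/-- the reduced residues modulo `q` -/
def red (q : ℕ) : Finset ℕ := (Finset.range q).filter (fun b => Nat.Coprime b q)

/-- the number of elements of `S` congruent to `b` modulo `q` -/
def cnt (S : Finset ℕ) (q b : ℕ) : ℕ := (S.filter (fun n => n ≡ b [MOD q])).card

/-- the energy -/
noncomputable def En (S : Finset ℕ) (q : ℕ) : ℝ :=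
  (Nat.totient q : ℝ) * ∑ a ∈ red q, (cnt S q a : ℝ) ^ 2

/-- the discrepancy of the classes modulo `r` relative to the classes modulo `q` -/
noncomputable def Disc (S : Finset ℕ) (q r : ℕ) : ℝ :=
  ∑ b ∈ red r, ((cnt S r b : ℝ) - (Nat.totient q : ℝ) / (Nat.totient r : ℝ) * cnt S q b) ^ 2

lemma mem_red {q b : ℕ} : b ∈ red q ↔ b < q ∧ Nat.Coprime b q := by
  simp [red]

lemma card_red (q : ℕ) : (red q).card = Nat.totient q := by
  rw [Nat.totient_eq_card_coprime]
  unfold red
  congr 1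
  apply Finset.filter_congr
  intro b _
  exact Nat.coprime_comm

lemma sum_units (r : ℕ) [NeZero r] (G : ℕ → ℝ) :
    ∑ u : (ZMod r)ˣ, G ((u : ZMod r).val) = ∑ b ∈ red r, G b := by
  apply Finset.sum_bij (fun (u : (ZMod r)ˣ) _ => (u : ZMod r).val)
  · intro u _
    rw [mem_red]
    exact ⟨ZMod.val_lt _, ZMod.val_coe_unit_coprime u⟩
  · intro u _ v _ h
    apply Units.ext
    exact ZMod.val_injective r h
  · intro b hb
    rw [mem_red] at hb
    refine ⟨ZMod.unitOfCoprime b hb.2, Finset.mem_univ _, ?_⟩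
    rw [ZMod.coe_unitOfCoprime, ZMod.val_natCast, Nat.mod_eq_of_lt hb.1]
  · intro u _; rfl

lemma sum_fiber (q r : ℕ) (hr : 0 < r) (hqr : q ∣ r) (g : ℕ → ℝ) :
    ∑ b ∈ red r, g (b % q) = (Nat.totient r : ℝ) / (Nat.totient q : ℝ) * ∑ a ∈ red q, g a := by
  classical
  have hq : 0 < q := Nat.pos_of_dvd_of_pos hqr hr
  haveI : NeZero r := ⟨hr.ne'⟩
  haveI : NeZero q := ⟨hq.ne'⟩
  rw [← sum_units r (fun b => g (b % q)), ← sum_units q g]
  have hval : ∀ u : (ZMod r)ˣ, (u : ZMod r).val % q =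
      ((ZMod.unitsMap hqr u : (ZMod q)ˣ) : ZMod q).val := by
    intro u
    rw [ZMod.unitsMap_val, ← ZMod.natCast_val, ZMod.val_natCast]
  simp only [hval]
  rw [← Finset.sum_fiberwise_of_maps_to (s := (Finset.univ : Finset (ZMod r)ˣ))
    (t := (Finset.univ : Finset (ZMod q)ˣ)) (g := fun u => ZMod.unitsMap hqr u)
    (fun _ _ => Finset.mem_univ _)]
  have hcard : ∀ a : (ZMod q)ˣ,
      (((Finset.univ : Finset (ZMod r)ˣ).filter (fun u => ZMod.unitsMap hqr u = a)).card : ℝ) =
        (Nat.totient r : ℝ) / (Nat.totient q : ℝ) := by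
    intro a
    have hsurj := ZMod.unitsMap_surjective hqr
    have hall : ∀ a' : (ZMod q)ˣ,
        ((Finset.univ : Finset (ZMod r)ˣ).filter (fun u => ZMod.unitsMap hqr u = a')).card =
        ((Finset.univ : Finset (ZMod r)ˣ).filter (fun u => ZMod.unitsMap hqr u = a)).card := by
      intro a'
      exact MonoidHom.card_fiber_eq_of_mem_range (ZMod.unitsMap hqr) (hsurj a') (hsurj a)
    have htot := Finset.card_eq_sum_card_fiberwise (s := (Finset.univ : Finset (ZMod r)ˣ))
      (t := (Finset.univ : Finset (ZMod q)ˣ)) (f := fun u => ZMod.unitsMap hqr u)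
      (fun _ _ => Finset.mem_univ _)
    rw [Finset.sum_congr rfl (fun a' _ => hall a'), Finset.sum_const, smul_eq_mul,
      Finset.card_univ, Finset.card_univ, ZMod.card_units_eq_totient,
      ZMod.card_units_eq_totient] at htot
    have hpos : (0 : ℝ) < Nat.totient q := by exact_mod_cast Nat.totient_pos.2 hq
    rw [eq_div_iff hpos.ne']
    have := congrArg (fun n : ℕ => (n : ℝ)) htot
    push_cast at this
    linarith
  rw [Finset.mul_sum]
  apply Finset.sum_congr rfl
  intro a _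
  rw [Finset.sum_congr rfl (g := fun _ => g ((a : ZMod q).val))]
  · rw [Finset.sum_const, nsmul_eq_mul, hcard a]
  · intro u hu
    rw [(Finset.mem_filter.1 hu).2]

lemma cnt_mod (S : Finset ℕ) (q b : ℕ) : cnt S q (b % q) = cnt S q b := by
  unfold cnt
  congr 1
  apply Finset.filter_congr
  intro n _
  have h : b % q ≡ b [MOD q] := Nat.mod_modEq b q
  exact ⟨fun h1 => h1.trans h, fun h1 => h1.trans h.symm⟩

/-- the classes over `a` -/
lemma sum_over (S : Finset ℕ) (q r : ℕ) (hr : 0 < r) (hqr : q ∣ r)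
    (hS : ∀ n ∈ S, Nat.Coprime n r) (a : ℕ) (ha : a ∈ red q) :
    ∑ b ∈ (red r).filter (fun b => b % q = a), (cnt S r b : ℝ) = cnt S q a := by
  classical
  have hq : 0 < q := Nat.pos_of_dvd_of_pos hqr hr
  rw [mem_red] at ha
  have h := Finset.card_eq_sum_card_fiberwise (s := S.filter (fun n => n ≡ a [MOD q]))
    (t := (red r).filter (fun b => b % q = a)) (f := fun n => n % r) (by
      intro n hn
      rw [Finset.mem_coe, Finset.mem_filter] at hn
      show n % r ∈ (((red r).filter (fun b => b % q = a) : Finset ℕ) : Set ℕ)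
      rw [Finset.mem_coe, Finset.mem_filter, mem_red]
      refine ⟨⟨Nat.mod_lt _ hr, ?_⟩, ?_⟩
      · have := hS n hn.1
        rw [Nat.coprime_iff_gcd_eq_one] at this ⊢
        rw [← Nat.gcd_rec, Nat.gcd_comm]
        exact this
      · rw [Nat.mod_mod_of_dvd n hqr]
        have h1 : n % q = a % q := hn.2
        rw [h1, Nat.mod_eq_of_lt ha.1])
  unfold cnt
  rw [h]
  push_cast
  apply Finset.sum_congr rfl
  intro b hb
  rw [Finset.mem_filter, mem_red] at hb
  congr 1
  rw [Finset.filter_filter]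
  congr 1
  apply Finset.filter_congr
  intro n _
  constructor
  · intro h1
    have h2 : n % r = b % r := h1
    rw [Nat.mod_eq_of_lt hb.1.1] at h2
    refine ⟨?_, h2⟩
    have h3 : n % q = b % q := (h1.of_dvd hqr)
    show n % q = a % q
    rw [h3, hb.2, Nat.mod_eq_of_lt ha.1]
  · intro h1
    show n % r = b % r
    rw [h1.2, Nat.mod_eq_of_lt hb.1.1]

/-- the energy identity -/
theorem energy_identity (S : Finset ℕ) (q r : ℕ) (hr : 0 < r) (hqr : q ∣ r)
    (hS : ∀ n ∈ S, Nat.Coprime n r) :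
    (Nat.totient r : ℝ) * Disc S q r = En S r - En S q := by
  classical
  have hq : 0 < q := Nat.pos_of_dvd_of_pos hqr hr
  have hφr : (0 : ℝ) < Nat.totient r := by exact_mod_cast Nat.totient_pos.2 hr
  have hφq : (0 : ℝ) < Nat.totient q := by exact_mod_cast Nat.totient_pos.2 hq
  set c : ℝ := (Nat.totient q : ℝ) / (Nat.totient r : ℝ) with hc
  have hcross : ∑ b ∈ red r, (cnt S r b : ℝ) * cnt S q b = ∑ a ∈ red q, (cnt S q a : ℝ) ^ 2 := by
    rw [← Finset.sum_fiberwise_of_maps_to (s := red r) (t := red q) (g := fun b => b % q)]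
    · apply Finset.sum_congr rfl
      intro a ha
      rw [Finset.sum_congr rfl (g := fun b => (cnt S r b : ℝ) * cnt S q a)]
      · rw [← Finset.sum_mul, sum_over S q r hr hqr hS a ha]
        ring
      · intro b hb
        rw [← cnt_mod S q b, (Finset.mem_filter.1 hb).2]
    · intro b hb
      rw [mem_red] at hb ⊢
      refine ⟨Nat.mod_lt _ hq, ?_⟩
      have h1 : Nat.Coprime b q := hb.2.coprime_dvd_right hqr
      rw [Nat.coprime_iff_gcd_eq_one] at h1 ⊢
      rw [← Nat.gcd_rec, Nat.gcd_comm]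
      exact h1
  have hsq : ∑ b ∈ red r, (cnt S q b : ℝ) ^ 2 =
      (Nat.totient r : ℝ) / (Nat.totient q : ℝ) * ∑ a ∈ red q, (cnt S q a : ℝ) ^ 2 := by
    rw [← sum_fiber q r hr hqr (fun a => (cnt S q a : ℝ) ^ 2)]
    apply Finset.sum_congr rfl
    intro b _
    show (cnt S q b : ℝ) ^ 2 = (cnt S q (b % q) : ℝ) ^ 2
    rw [cnt_mod]
  have hexp : Disc S q r = ∑ b ∈ red r, (cnt S r b : ℝ) ^ 2 -
      2 * c * ∑ b ∈ red r, (cnt S r b : ℝ) * cnt S q b +
      c ^ 2 * ∑ b ∈ red r, (cnt S q b : ℝ) ^ 2 := by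
    unfold Disc
    rw [Finset.mul_sum, Finset.mul_sum, ← Finset.sum_sub_distrib, ← Finset.sum_add_distrib]
    apply Finset.sum_congr rfl
    intro b _
    rw [← hc]
    ring
  rw [hexp, hcross, hsq]
  unfold En
  rw [hc]
  field_simp
  ring

lemma En_nonneg (S : Finset ℕ) (q : ℕ) : 0 ≤ En S q := by
  unfold En; positivity

lemma Disc_nonneg (S : Finset ℕ) (q r : ℕ) : 0 ≤ Disc S q r := by
  unfold Disc; positivity

/-- monotonicity of the energy along divisibility -/
lemma En_mono (S : Finset ℕ) (q r : ℕ) (hr : 0 < r) (hqr : q ∣ r)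
    (hS : ∀ n ∈ S, Nat.Coprime n r) : En S q ≤ En S r := by
  have h := energy_identity S q r hr hqr hS
  have h2 : 0 ≤ (Nat.totient r : ℝ) * Disc S q r :=
    mul_nonneg (Nat.cast_nonneg _) (Disc_nonneg S q r)
  linarith

/-- telescoping with a step `k` -/
lemma tele (e : ℕ → ℝ) (he0 : ∀ j, 0 ≤ e j) (k J : ℕ) (M : ℝ) (hM : ∀ j < J + k, e j ≤ M) :
    ∑ j ∈ Finset.range J, (e (j + k) - e j) ≤ k * M := by
  have h1 : ∑ j ∈ Finset.range J, e (j + k) + ∑ j ∈ Finset.range k, e j =
      ∑ j ∈ Finset.range (J + k), e j := by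
    rw [add_comm J k, Finset.sum_range_add, add_comm]
    congr 1
    apply Finset.sum_congr rfl
    intro j _
    rw [add_comm]
  have h2 : ∑ j ∈ Finset.range (J + k), e j = ∑ j ∈ Finset.range J, e j +
      ∑ j ∈ Finset.range k, e (J + j) := by
    rw [Finset.sum_range_add]
  have h3 : ∑ j ∈ Finset.range k, e (J + j) ≤ ∑ j ∈ Finset.range k, M := by
    apply Finset.sum_le_sum
    intro j hj
    exact hM _ (by have := Finset.mem_range.1 hj; omega)
  rw [Finset.sum_const, Finset.card_range, nsmul_eq_mul] at h3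
  have h4 : 0 ≤ ∑ j ∈ Finset.range k, e j := Finset.sum_nonneg (fun j _ => he0 j)
  rw [Finset.sum_sub_distrib]
  linarith

end Pool.Agent.H582EH
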